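import Mathlib
import Pool.Agent.Q289.FM.Stm

/-!
# `tt` is a moment sequence on `[0, 27/4]`
-/

set_option autoImplicit false

open MeasureTheory Filter Topology ProbabilityTheory

namespace Pool.Agent.Q190.FM

open Pool.Agent.Q289.FM

lemma betaPDFReal_nonneg' {α β : ℝ} (hα : 0 < α) (hβ : 0 < β) (x : ℝ) : 0 ≤ betaPDFReal α β x := by
  by_cases h : 0 < x ∧ x < 1
  · exact (betaPDFReal_pos h.1 h.2 hα hβ).le
  · rw [betaPDFReal, if_neg h]

lemma int_pdf {α β : ℝ} (hα : 0 < α) (hβ : 0 < β) : ∫ x, betaPDFReal α β x = 1 := by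
  rw [integral_eq_lintegral_of_nonneg_ae (Eventually.of_forall (betaPDFReal_nonneg' hα hβ))
    (measurable_betaPDFReal α β).aestronglyMeasurable]
  have := lintegral_betaPDF_eq_one hα hβ
  unfold betaPDF at this
  rw [this, ENNReal.toReal_one]

lemma beta_mom {α β : ℝ} (hα : 0 < α) (hβ : 0 < β) (k : ℕ) :
    ∫ x, x ^ k ∂(betaMeasure α β) = beta (α + k) β / beta α β := by
  unfold betaMeasure
  rw [integral_withDensity_eq_integral_toReal_smul]
  · have h1 : ∀ x : ℝ, (betaPDF α β x).toReal • x ^ k =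
        beta (α + k) β / beta α β * betaPDFReal (α + k) β x := by
      intro x
      rw [betaPDF, ENNReal.toReal_ofReal (betaPDFReal_nonneg' hα hβ x)]
      by_cases h : 0 < x ∧ x < 1
      · rw [betaPDFReal, betaPDFReal, if_pos h, if_pos h]
        have h2 : x ^ (α + k - 1) = x ^ (α - 1) * x ^ k := by
          rw [show α + k - 1 = (α - 1) + k by ring, Real.rpow_add h.1, Real.rpow_natCast]
        have h3 := (beta_pos hα hβ).ne'
        have h4 := (beta_pos (add_pos_of_pos_of_nonneg hα (Nat.cast_nonneg k)) hβ).ne'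
        rw [h2, smul_eq_mul]
        field_simp
      · rw [betaPDFReal, betaPDFReal, if_neg h, if_neg h]
        simp
    simp_rw [h1]
    rw [integral_const_mul, int_pdf (add_pos_of_pos_of_nonneg hα (Nat.cast_nonneg k)) hβ, mul_one]
  · exact (measurable_betaPDFReal α β).ennreal_ofReal
  · exact Eventually.of_forall (fun x => ENNReal.ofReal_lt_top)

lemma beta_rec {α β : ℝ} (hα : 0 < α) (hβ : 0 < β) :
    beta (α + 1) β = beta α β * (α / (α + β)) := by
  unfold beta
  rw [Real.Gamma_add_one hα.ne', show α + 1 + β = (α + β) + 1 by ring,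
    Real.Gamma_add_one (by positivity)]
  have := (Real.Gamma_pos_of_pos (add_pos hα hβ)).ne'
  field_simp

lemma beta_mom_succ {α β : ℝ} (hα : 0 < α) (hβ : 0 < β) (k : ℕ) :
    ∫ x, x ^ (k + 1) ∂(betaMeasure α β) =
      (∫ x, x ^ k ∂(betaMeasure α β)) * ((α + k) / (α + k + β)) := by
  rw [beta_mom hα hβ, beta_mom hα hβ]
  have h1 : α + ((k + 1 : ℕ) : ℝ) = (α + k) + 1 := by push_cast; ring
  rw [h1, beta_rec (add_pos_of_pos_of_nonneg hα (Nat.cast_nonneg k)) hβ]
  ring

lemma beta_supp {α β : ℝ} : betaMeasure α β (Set.Icc 0 1)ᶜ = 0 := by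
  unfold betaMeasure
  rw [withDensity_apply _ measurableSet_Icc.compl]
  refine setLIntegral_eq_zero measurableSet_Icc.compl (fun x hx => ?_)
  rw [Set.mem_compl_iff, Set.mem_Icc, not_and_or, not_le, not_le] at hx
  rcases hx with hx | hx
  · exact betaPDF_eq_zero_of_nonpos hx.le
  · exact betaPDF_eq_zero_of_one_le hx.le

theorem betaM : S_BETA := by
  haveI h1 : IsProbabilityMeasure (betaMeasure (4 / 3) (2 / 3)) :=
    isProbabilityMeasureBeta (by norm_num) (by norm_num)
  haveI h2 : IsProbabilityMeasure (betaMeasure (2 / 3) (5 / 6)) :=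
    isProbabilityMeasureBeta (by norm_num) (by norm_num)
  have hm : Measurable (fun p : ℝ × ℝ => 27 / 4 * p.1 * p.2) := by fun_prop
  refine ⟨((betaMeasure (4 / 3) (2 / 3)).prod (betaMeasure (2 / 3) (5 / 6))).map
    (fun p => 27 / 4 * p.1 * p.2), Measure.isProbabilityMeasure_map hm.aemeasurable, ?_, ?_⟩
  · rw [Measure.map_apply hm measurableSet_Icc.compl]
    refine measure_mono_null (t := (Set.Icc (0 : ℝ) 1)ᶜ ×ˢ Set.univ ∪ Set.univ ×ˢ (Set.Icc (0 : ℝ) 1)ᶜ)
      ?_ ?_
    · intro p hp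
      by_contra hcon
      simp only [Set.mem_union, Set.mem_prod, Set.mem_compl_iff, Set.mem_univ, and_true, true_and,
        not_or, not_not, Set.mem_Icc] at hcon
      apply hp
      obtain ⟨⟨ha, hb⟩, ⟨hc, hd⟩⟩ := hcon
      simp only [Set.mem_Icc]
      constructor
      · positivity
      · nlinarith [mul_nonneg ha hc, mul_nonneg ha (sub_nonneg.mpr hd)]
    · rw [measure_union_null_iff]
      rw [Measure.prod_prod, Measure.prod_prod, beta_supp, beta_supp]
      simp
  · intro k
    rw [integral_map hm.aemeasurable (by fun_prop)]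
    have h3 : ∀ p : ℝ × ℝ, (27 / 4 * p.1 * p.2) ^ k = (27 / 4) ^ k * (p.1 ^ k * p.2 ^ k) := by
      intro p; rw [mul_pow, mul_pow, mul_assoc]
    simp_rw [h3]
    rw [integral_const_mul, integral_prod_mul (fun x : ℝ => x ^ k) (fun x : ℝ => x ^ k)]
    induction k with
    | zero =>
      simp [tt]
    | succ k ih =>
      have ih' := ih (fun p => by rw [mul_pow, mul_pow, mul_assoc])
      rw [beta_mom_succ (by norm_num) (by norm_num), beta_mom_succ (by norm_num) (by norm_num)]
      rw [tt, ← ih']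
      have hk : (0 : ℝ) ≤ k := Nat.cast_nonneg k
      have e1 : (4 / 3 + (k : ℝ)) + 2 / 3 = k + 2 := by ring
      have e2 : (2 / 3 + (k : ℝ)) + 5 / 6 = (2 * k + 3) / 2 := by ring
      rw [e1, e2, pow_succ]
      field_simp
      ring

end Pool.Agent.Q190.FM
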