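import Mathlib
import Pool.Agent.Q289.FM.Stm

/-!
# Isometries with orthogonal ranges
-/

set_option autoImplicit false

open Filter Topology

namespace Pool.Agent.Q190.FM

open Pool.Agent.Q289.FM

abbrev HH : Type := lp (fun _ : ℕ => ℂ) 2

noncomputable def bb (n : ℕ) : HH := lp.single 2 n (1 : ℂ)

lemma bb_orth : Orthonormal ℂ bb := by
  have h : (HilbertBasis.ofRepr (LinearIsometryEquiv.refl ℂ HH) : ℕ → HH) = bb := by
    ext1 n
    rw [← HilbertBasis.repr_symm_single]
    rfl
  have := (HilbertBasis.ofRepr (LinearIsometryEquiv.refl ℂ HH)).orthonormal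
  rw [h] at this
  exact this

lemma phi_orth (φ : ℕ → ℕ) (hφ : Function.Injective φ) :
    Orthonormal ℂ (fun n => bb (φ n)) := bb_orth.comp φ hφ

noncomputable def VV (φ : ℕ → ℕ) (hφ : Function.Injective φ) : HH →ₗᵢ[ℂ] HH :=
  (phi_orth φ hφ).orthogonalFamily.linearIsometry

lemma VV_hasSum (φ : ℕ → ℕ) (hφ : Function.Injective φ) (y : HH) :
    HasSum (fun n => y n • bb (φ n)) (VV φ hφ y) := by
  have := (phi_orth φ hφ).orthogonalFamily.hasSum_linearIsometry y
  simpa [VV] using this

lemma inner_VV (φ : ℕ → ℕ) (hφ : Function.Injective φ) (u y : HH)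
    (hu : ∀ n, inner ℂ u (bb (φ n)) = (0 : ℂ)) : inner ℂ u (VV φ hφ y) = (0 : ℂ) := by
  have h1 := (innerSL ℂ u).hasSum (VV_hasSum φ hφ y)
  have h2 : HasSum (fun n => (innerSL ℂ u) (y n • bb (φ n))) (0 : ℂ) := by
    have : (fun n => (innerSL ℂ u) (y n • bb (φ n))) = fun _ => (0 : ℂ) := by
      ext n
      rw [map_smul, innerSL_apply_apply, hu, smul_zero]
    rw [this]
    exact hasSum_zero
  exact h1.unique h2

theorem cu : S_CU := by
  intro N
  have hφ : ∀ i : Fin N, Function.Injective (fun n : ℕ => N * n + i + 1) := by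
    intro i a b hab
    have hN : 0 < N := i.pos
    have h1 : N * a + i + 1 = N * b + i + 1 := hab
    have h2 : N * a = N * b := by omega
    exact Nat.eq_of_mul_eq_mul_left hN h2
  refine ⟨HH, inferInstance, inferInstance, inferInstance, bb 0,
    fun i => (VV _ (hφ i)).toContinuousLinearMap, bb_orth.1 0, ?_, ?_⟩
  · intro i
    refine ext_inner_right ℂ (fun v => ?_)
    rw [ContinuousLinearMap.adjoint_inner_left, inner_zero_left]
    refine inner_VV _ (hφ i) _ _ (fun n => bb_orth.2 ?_)
    intro h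
    have : 0 = N * n + i + 1 := h
    omega
  · intro i j
    ext1 y
    refine ext_inner_left ℂ (fun v => ?_)
    have h1 : inner ℂ v (((ContinuousLinearMap.adjoint (VV _ (hφ i)).toContinuousLinearMap) *
        (VV _ (hφ j)).toContinuousLinearMap) y) = inner ℂ (VV _ (hφ i) v) (VV _ (hφ j) y) := by
      change inner ℂ v ((ContinuousLinearMap.adjoint (VV _ (hφ i)).toContinuousLinearMap)
        (VV _ (hφ j) y)) = _
      rw [ContinuousLinearMap.adjoint_inner_right]
      rfl
    rw [h1]
    by_cases hij : i = j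
    · subst hij
      rw [if_pos rfl, LinearIsometry.inner_map_map]
      rfl
    · rw [if_neg hij]
      have h2 : inner ℂ v ((0 : HH →L[ℂ] HH) y) = (0 : ℂ) := by
        simp
      rw [h2]
      refine inner_VV _ (hφ j) _ _ (fun n => ?_)
      rw [← inner_conj_symm, inner_VV _ (hφ i) _ _ (fun m => bb_orth.2 ?_), map_zero]
      intro h
      have h3 : N * n + j + 1 = N * m + i + 1 := h
      have h4 : N * n + j = N * m + i := by omega
      apply hij
      have h5 : (N * n + (j : ℕ)) % N = (N * m + (i : ℕ)) % N := by rw [h4]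
      rw [Nat.mul_add_mod, Nat.mul_add_mod, Nat.mod_eq_of_lt j.2, Nat.mod_eq_of_lt i.2] at h5
      exact Fin.ext h5.symm

end Pool.Agent.Q190.FM
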