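import Mathlib
import Pool.Agent.Q289.FM.Stm

/-!
# Compactly supported free Lévy measures: from finite support to the general case
-/

set_option autoImplicit false

open MeasureTheory Filter Topology

namespace Pool.Agent.Q190.FM

open Pool.Agent.Q289.FM

lemma far_gen (L S : ℝ) (hL : 0 ≤ L) (hS : 0 ≤ S) (z c : ℂ) (hz : z ≠ 0)
    (hzs : 4 * ‖z‖ * (L + √S) < 1) (hc : ‖c‖ ≤ S * (‖z‖ * (4 / 3))) :
    L + 2 * √S < ‖c + 1 / z‖ := by
  have hS0 : 0 ≤ √S := Real.sqrt_nonneg _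
  have hz0 : 0 < ‖z‖ := norm_pos_iff.mpr hz
  have h5 : ‖(1 / z : ℂ)‖ - ‖c‖ ≤ ‖c + 1 / z‖ := by
    have := norm_sub_norm_le (1 / z : ℂ) (-c)
    rw [norm_neg] at this
    refine this.trans (le_of_eq ?_)
    congr 1; ring
  refine lt_of_lt_of_le ?_ h5
  rw [norm_div, norm_one]
  refine lt_of_lt_of_le ?_ (sub_le_sub_left hc _)
  rw [lt_sub_iff_add_lt, lt_div_iff₀ hz0]
  set a := ‖z‖ * L with ha
  set b := ‖z‖ * √S with hb
  have hb0 : 0 ≤ b := by positivity
  have ha0 : 0 ≤ a := by positivity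
  have h7 : (L + 2 * √S + S * (‖z‖ * (4 / 3))) * ‖z‖ = a + 2 * b + 4 / 3 * b ^ 2 := by
    rw [ha, hb, mul_pow, Real.sq_sqrt hS]
    ring
  have h8 : 4 * (a + b) < 1 := by rw [ha, hb]; linarith [hzs, mul_add ‖z‖ L (√S)]
  rw [h7]
  nlinarith

lemma simple_sum (σ : Measure ℝ) [IsFiniteMeasure σ] (q : SimpleFunc ℝ ℝ) (g : ℝ → ℂ) :
    ∫ x, g (q x) ∂σ = ∑ y ∈ q.range, (σ.real (q ⁻¹' {y}) : ℂ) * g y := by
  have h1 : ∀ x, g (q x) = ∑ y ∈ q.range, (q ⁻¹' {y}).indicator (fun _ => g y) x := by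
    intro x
    rw [Finset.sum_eq_single (q x)]
    · rw [Set.indicator_of_mem (by simp)]
    · intro y _ hy
      rw [Set.indicator_of_notMem]
      simpa using hy.symm
    · intro h
      exact absurd (SimpleFunc.mem_range_self q x) h
  simp_rw [h1]
  rw [integral_finsetSum]
  · refine Finset.sum_congr rfl (fun y _ => ?_)
    rw [integral_indicator_const _ (q.measurableSet_fiber y)]
    simp
  · intro y _
    exact (integrable_const _).indicator (q.measurableSet_fiber y)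

lemma fin_q (h : S_FIN) (σ : Measure ℝ) [IsFiniteMeasure σ] (q : SimpleFunc ℝ ℝ) (L γ : ℝ)
    (hL : 0 ≤ L) (hq : ∀ x, |q x| ≤ L) :
    ∃ ν : Measure ℝ, IsProbabilityMeasure ν ∧
      ν (Set.Icc (γ - (L + 2 * √(σ.real Set.univ))) (γ + (L + 2 * √(σ.real Set.univ))))ᶜ = 0 ∧
      ∀ z : ℂ, z ≠ 0 → 4 * ‖z‖ * (L + √(σ.real Set.univ)) < 1 →
        cauchyT ν (((γ : ℂ) + ∫ x : ℝ, z / (1 - (q x : ℂ) * z) ∂σ) + 1 / z) = z := by
  set e : Fin q.range.card ≃ q.range := q.range.equivFin.symm with he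
  have hsum : ∀ F : ℝ → ℂ, ∑ i, F ((e i : q.range) : ℝ) = ∑ y ∈ q.range, F y := by
    intro F
    rw [Equiv.sum_comp e (fun y : q.range => F (y : ℝ))]
    exact Finset.sum_coe_sort q.range F
  have hx : ∀ i, |((e i : q.range) : ℝ)| ≤ L := by
    intro i
    obtain ⟨x, hx⟩ := SimpleFunc.mem_range.mp (e i).2
    rw [← hx]; exact hq x
  have hS : ∑ i, σ.real (q ⁻¹' {((e i : q.range) : ℝ)}) = σ.real Set.univ := by
    have h1 := simple_sum σ q (fun _ => 1)
    rw [← hsum (fun y => (σ.real (q ⁻¹' {y}) : ℂ) * 1)] at h1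
    simp only [integral_const, mul_one, Complex.real_smul] at h1
    exact_mod_cast h1.symm
  obtain ⟨ν, h1, h2, h3⟩ := h q.range.card (fun i => ((e i : q.range) : ℝ))
    (fun i => σ.real (q ⁻¹' {((e i : q.range) : ℝ)})) L γ hL (fun i => measureReal_nonneg) hx
  rw [hS] at h2
  refine ⟨ν, h1, h2, fun z hz hzs => ?_⟩
  have h4 := h3 z hz (by rw [hS]; exact hzs)
  refine Eq.trans ?_ h4
  congr 3
  rw [simple_sum σ q (fun y => z / (1 - (y : ℂ) * z)),
    ← hsum (fun y => (σ.real (q ⁻¹' {y}) : ℂ) * (z / (1 - (y : ℂ) * z)))]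

lemma compact_lim (a b : ℝ) (ν : ℕ → Measure ℝ) (hν : ∀ j, IsProbabilityMeasure (ν j))
    (hs : ∀ j, ν j (Set.Icc a b)ᶜ = 0) :
    ∃ ν' : Measure ℝ, IsProbabilityMeasure ν' ∧ ν' (Set.Icc a b)ᶜ = 0 ∧
      ∀ f : ℝ → ℂ, ContinuousOn f (Set.Icc a b) →
        Tendsto (fun j => ∫ x, f x ∂(ν j)) (hyperfilter ℕ) (𝓝 (∫ x, f x ∂ν')) := by
  have hK : MeasurableSet (Set.Icc a b) := measurableSet_Icc
  have hme : MeasurableEmbedding (Subtype.val : Set.Icc a b → ℝ) := MeasurableEmbedding.subtype_coe hK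
  have hprob : ∀ j, IsProbabilityMeasure ((ν j).comap (Subtype.val : Set.Icc a b → ℝ)) := by
    intro j
    haveI := hν j
    constructor
    rw [hme.comap_apply, Set.image_univ, Subtype.range_coe]
    exact (prob_compl_eq_zero_iff hK).mp (hs j)
  set κ : ℕ → ProbabilityMeasure (Set.Icc a b) := fun j => ⟨_, hprob j⟩ with hκ
  obtain ⟨κ', -, hκ'⟩ := (isCompact_univ (X := ProbabilityMeasure (Set.Icc a b))).ultrafilter_le_nhds
    ((hyperfilter ℕ).map κ) (by simp)
  have hlim : Tendsto κ (hyperfilter ℕ) (𝓝 κ') := hκ'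
  haveI : IsProbabilityMeasure (κ' : Measure (Set.Icc a b)) := κ'.2
  refine ⟨(κ' : Measure (Set.Icc a b)).map Subtype.val, ?_, ?_, ?_⟩
  · exact Measure.isProbabilityMeasure_map hme.measurable.aemeasurable
  · rw [Measure.map_apply hme.measurable hK.compl]
    have : (Subtype.val : Set.Icc a b → ℝ) ⁻¹' (Set.Icc a b)ᶜ = ∅ := by
      ext x; simp
    rw [this, measure_empty]
  · intro f hf
    rw [hme.integral_map]
    have h1 : ∀ j, ∫ x, f x ∂(ν j) = ∫ x : Set.Icc a b, f x ∂(κ j : Measure (Set.Icc a b)) := by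
      intro j
      haveI := hν j
      have h2 : ∫ x : Set.Icc a b, f x ∂((ν j).comap Subtype.val) = ∫ x in Set.Icc a b, f x ∂(ν j) :=
        integral_subtype_comap hK f
      have h3 : (ν j).restrict (Set.Icc a b) = ν j := by
        refine Measure.restrict_eq_self_of_ae_mem ?_
        rw [ae_iff]
        exact hs j
      rw [h3] at h2
      exact h2.symm
    simp_rw [h1]
    have hfc : Continuous (fun x : Set.Icc a b => f x) := continuousOn_iff_continuous_domRestrict.mp hf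
    have := (ProbabilityMeasure.tendsto_iff_forall_integral_rclike_tendsto ℂ).mp hlim
      (BoundedContinuousFunction.mkOfCompact ⟨fun x : Set.Icc a b => f x, hfc⟩)
    simpa using this

/-- Analyticity of the R-transform at `0`. -/
lemma ana (σ : Measure ℝ) [IsFiniteMeasure σ] (L γ : ℝ) (hL : 0 ≤ L)
    (hσ : σ (Set.Icc (-L) L)ᶜ = 0) :
    AnalyticAt ℂ (fun z : ℂ => (γ : ℂ) + ∫ x : ℝ, z / (1 - x * z) ∂σ) 0 := by
  have hae : ∀ᵐ x ∂σ, |x| ≤ L := by
    rw [ae_iff]
    refine measure_mono_null ?_ hσ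
    intro x hx hcon
    exact hx (abs_le.mpr ⟨hcon.1, hcon.2⟩)
  set r : ℝ := 1 / (2 * (L + 1)) with hr
  have hr0 : 0 < r := by positivity
  have hrL : r * L ≤ 1 / 2 := by
    rw [hr, div_mul_eq_mul_div, div_le_iff₀ (by positivity)]
    linarith
  have hden : ∀ x : ℝ, |x| ≤ L → ∀ z ∈ Metric.ball (0 : ℂ) r, 1 / 2 ≤ ‖1 - (x : ℂ) * z‖ := by
    intro x hx z hz
    have hz' : ‖z‖ < r := by simpa using hz
    have h3 : ‖(x : ℂ) * z‖ ≤ 1 / 2 := by
      rw [norm_mul, Complex.norm_real, Real.norm_eq_abs]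
      calc |x| * ‖z‖ ≤ L * r := by gcongr
        _ ≤ 1 / 2 := by linarith
    have h4 := norm_sub_norm_le (1 : ℂ) ((x : ℂ) * z)
    rw [norm_one] at h4
    linarith
  have hden0 : ∀ x : ℝ, |x| ≤ L → ∀ z ∈ Metric.ball (0 : ℂ) r, 1 - (x : ℂ) * z ≠ 0 := by
    intro x hx z hz h0
    have := hden x hx z hz
    rw [h0, norm_zero] at this
    linarith
  have hmeas : ∀ z : ℂ, Measurable (fun x : ℝ => z / (1 - (x : ℂ) * z)) := by
    intro z; fun_prop
  have hint : ∀ z ∈ Metric.ball (0 : ℂ) r, Integrable (fun x : ℝ => z / (1 - (x : ℂ) * z)) σ := by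
    intro z hz
    refine Integrable.mono' (integrable_const (‖z‖ * 2)) (hmeas z).aestronglyMeasurable ?_
    filter_upwards [hae] with x hx
    rw [norm_div, div_eq_mul_inv]
    gcongr
    have := hden x hx z hz
    rw [inv_le_comm₀ (by linarith) (by norm_num)]
    linarith
  refine analyticAt_const.add ?_
  refine DifferentiableOn.analyticAt (s := Metric.ball 0 r) ?_ (Metric.ball_mem_nhds 0 hr0)
  intro z hz
  have hnhds : Metric.ball (0 : ℂ) r ∈ 𝓝 z := Metric.isOpen_ball.mem_nhds hz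
  refine DifferentiableAt.differentiableWithinAt ?_
  refine (hasDerivAt_integral_of_dominated_loc_of_deriv_le (μ := σ)
    (F := fun (z : ℂ) (x : ℝ) => z / (1 - (x : ℂ) * z))
    (F' := fun (z : ℂ) (x : ℝ) => 1 / (1 - (x : ℂ) * z) ^ 2) (bound := fun _ => 4)
    (s := Metric.ball 0 r) hnhds ?_ (hint z hz) ?_ ?_ (integrable_const _) ?_).2.differentiableAt
  · exact Eventually.of_forall (fun z => (hmeas z).aestronglyMeasurable)
  · refine Measurable.aestronglyMeasurable ?_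
    fun_prop
  · filter_upwards [hae] with x hx u hu
    rw [norm_div, norm_one, norm_pow, div_le_iff₀ (by have := hden x hx u hu; positivity)]
    have := hden x hx u hu
    nlinarith
  · filter_upwards [hae] with x hx u hu
    have h0 := hden0 x hx u hu
    have h1 : HasDerivAt (fun u : ℂ => 1 - (x : ℂ) * u) (-(x : ℂ)) u := by
      have := ((hasDerivAt_id u).const_mul (x : ℂ)).const_sub 1
      simpa using this
    have h2 : HasDerivAt (fun u : ℂ => u / (1 - (x : ℂ) * u))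
        ((1 * (1 - (x : ℂ) * u) - u * (-(x : ℂ))) / (1 - (x : ℂ) * u) ^ 2) u :=
      (hasDerivAt_id u).div h1 h0
    have h3 : (1 * (1 - (x : ℂ) * u) - u * (-(x : ℂ))) / (1 - (x : ℂ) * u) ^ 2 =
        1 / (1 - (x : ℂ) * u) ^ 2 := by
      congr 1; ring
    rw [h3] at h2
    exact h2

theorem fid (h : S_FIN) : S_FID := by
  intro σ _ L γ hL hσ
  set S : ℝ := σ.real Set.univ with hS
  have hS0 : 0 ≤ S := measureReal_nonneg
  have hae : ∀ᵐ x ∂σ, |x| ≤ L := by
    rw [ae_iff]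
    refine measure_mono_null ?_ hσ
    intro x hx hcon
    exact hx (abs_le.mpr ⟨hcon.1, hcon.2⟩)
  have hmem0 : (0 : ℝ) ∈ Set.Icc (-L) L := ⟨by linarith, hL⟩
  set q : ℕ → SimpleFunc ℝ ℝ := fun n =>
    SimpleFunc.approxOn (fun x : ℝ => x) measurable_id (Set.Icc (-L) L) 0 hmem0 n with hq
  have hqL : ∀ n x, |q n x| ≤ L := fun n x =>
    abs_le.mpr (SimpleFunc.approxOn_mem measurable_id hmem0 n x)
  have hqt : ∀ x, |x| ≤ L → Tendsto (fun n => q n x) atTop (𝓝 x) := by
    intro x hx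
    exact SimpleFunc.tendsto_approxOn (f := fun x : ℝ => x) measurable_id hmem0
      (subset_closure (abs_le.mp hx))
  choose ν hν1 hν2 hν3 using fun n => fin_q h σ (q n) L γ hL (hqL n)
  set a : ℝ := γ - (L + 2 * √S) with ha
  set b : ℝ := γ + (L + 2 * √S) with hb
  obtain ⟨ν', h1, h2, h3⟩ := compact_lim a b ν hν1 hν2
  refine ⟨ν', h1, h2, ana σ L γ hL hσ, ?_⟩
  have hev : ∀ᶠ z : ℂ in 𝓝[≠] 0, z ≠ 0 ∧ 4 * ‖z‖ * (L + √S) < 1 := by
    refine (eventually_mem_nhdsWithin).and ?_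
    refine eventually_nhdsWithin_of_eventually_nhds ?_
    have hc : Continuous (fun z : ℂ => 4 * ‖z‖ * (L + √S)) := by fun_prop
    have := hc.tendsto 0
    simp only [norm_zero, mul_zero, zero_mul] at this
    exact this.eventually (gt_mem_nhds one_pos)
  filter_upwards [hev] with z hz
  obtain ⟨hz, hzs⟩ := hz
  have hz0 : 0 < ‖z‖ := norm_pos_iff.mpr hz
  have hzL : ‖z‖ * L < 1 / 4 := by nlinarith [mul_nonneg hz0.le (Real.sqrt_nonneg S)]
  -- bound of the integrand
  have hbd : ∀ x : ℝ, |x| ≤ L → ‖z / (1 - (x : ℂ) * z)‖ ≤ ‖z‖ * (4 / 3) := by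
    intro x hx
    rw [norm_div, div_eq_mul_inv]
    gcongr
    have h2 : 3 / 4 ≤ ‖1 - (x : ℂ) * z‖ := by
      have h3 : ‖(x : ℂ) * z‖ ≤ 1 / 4 := by
        rw [norm_mul, Complex.norm_real, Real.norm_eq_abs]
        have := mul_le_mul_of_nonneg_right hx hz0.le
        linarith
      have h4 := norm_sub_norm_le (1 : ℂ) ((x : ℂ) * z)
      rw [norm_one] at h4
      linarith
    rw [inv_le_comm₀ (by linarith) (by norm_num)]
    linarith
  have hbdint : ∀ g : ℝ → ℝ, (∀ᵐ x ∂σ, |g x| ≤ L) →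
      ‖∫ x : ℝ, z / (1 - (g x : ℂ) * z) ∂σ‖ ≤ S * (‖z‖ * (4 / 3)) := by
    intro g hg
    have := norm_integral_le_of_norm_le_const (μ := σ) (f := fun x : ℝ => z / (1 - (g x : ℂ) * z))
      (C := ‖z‖ * (4 / 3)) (by filter_upwards [hg] with x hx using hbd _ hx)
    rw [mul_comm]; exact this
  -- the limit point
  set I : ℂ := ∫ x : ℝ, z / (1 - (x : ℂ) * z) ∂σ with hI
  have hIt : Tendsto (fun n => ∫ x : ℝ, z / (1 - (q n x : ℂ) * z) ∂σ) atTop (𝓝 I) := by
    refine tendsto_integral_of_dominated_convergence (fun _ => ‖z‖ * (4 / 3)) ?_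
      (integrable_const _) ?_ ?_
    · intro n
      refine Measurable.aestronglyMeasurable ?_
      have := (q n).measurable
      fun_prop
    · intro n
      exact Eventually.of_forall (fun x => hbd _ (hqL n x))
    · filter_upwards [hae] with x hx
      have h4 := hqt x hx
      have hne : 1 - (x : ℂ) * z ≠ 0 := by
        intro h0
        have h5 : ‖(x : ℂ) * z‖ = 1 := by
          rw [show (x : ℂ) * z = 1 by linear_combination -h0, norm_one]
        rw [norm_mul, Complex.norm_real, Real.norm_eq_abs] at h5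
        have := mul_le_mul_of_nonneg_right hx hz0.le
        linarith
      have h5 : Tendsto (fun n => ((q n x : ℝ) : ℂ)) atTop (𝓝 (x : ℂ)) :=
        (Complex.continuous_ofReal.tendsto x).comp h4
      exact tendsto_const_nhds.div (tendsto_const_nhds.sub (h5.mul_const z)) hne
  set w : ℂ := ((γ : ℂ) + I) + 1 / z with hw
  set wn : ℕ → ℂ := fun n => ((γ : ℂ) + ∫ x : ℝ, z / (1 - (q n x : ℂ) * z) ∂σ) + 1 / z with hwn
  have hwt : Tendsto wn atTop (𝓝 w) := (tendsto_const_nhds.add hIt).add_const _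
  have hfar : L + 2 * √S < ‖I + 1 / z‖ :=
    far_gen L S hL hS0 z I hz hzs (hbdint (fun x => x) hae)
  set δ : ℝ := ‖I + 1 / z‖ - (L + 2 * √S) with hδ
  have hδ0 : 0 < δ := by rw [hδ]; linarith
  have hdist : ∀ u : ℂ, ∀ y ∈ Set.Icc a b, ‖u - γ‖ - (L + 2 * √S) ≤ ‖u - (y : ℂ)‖ := by
    intro u y hy
    have h5 : ‖(y : ℂ) - γ‖ ≤ L + 2 * √S := by
      rw [← Complex.ofReal_sub, Complex.norm_real, Real.norm_eq_abs, abs_le]
      exact ⟨by linarith [hy.1], by linarith [hy.2]⟩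
    have h6 : u - γ = (u - y) + (y - γ) := by ring
    have h7 : ‖u - γ‖ ≤ ‖u - y‖ + ‖(y : ℂ) - γ‖ := by rw [h6]; exact norm_add_le _ _
    linarith
  have hwγ : ‖w - γ‖ = ‖I + 1 / z‖ := by rw [hw]; congr 1; ring
  have hdw : ∀ y ∈ Set.Icc a b, δ ≤ ‖w - (y : ℂ)‖ := by
    intro y hy
    have := hdist w y hy
    rw [hwγ] at this
    exact this
  have hne : ∀ y ∈ Set.Icc a b, w - (y : ℂ) ≠ 0 := by
    intro y hy h0
    have := hdw y hy
    rw [h0, norm_zero] at this
    linarith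
  have hcont : ContinuousOn (fun x : ℝ => (w - (x : ℂ))⁻¹) (Set.Icc a b) := by
    refine ContinuousOn.inv₀ (by fun_prop) hne
  have hlim1 := h3 _ hcont
  have hhyp : (hyperfilter ℕ : Filter ℕ) ≤ atTop := by
    rw [← Nat.cofinite_eq_atTop]; exact hyperfilter_le_cofinite
  -- comparison of the two integrals
  have hev2 : ∀ᶠ n in atTop, ‖wn n - w‖ < δ / 2 := by
    have := (tendsto_iff_norm_sub_tendsto_zero.mp hwt).eventually (gt_mem_nhds (half_pos hδ0))
    exact this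
  have haeK : ∀ n, ∀ᵐ y ∂(ν n), y ∈ Set.Icc a b := by
    intro n
    rw [ae_iff]
    exact hν2 n
  have hdiff : ∀ᶠ n in atTop, ‖z - ∫ x : ℝ, (w - (x : ℂ))⁻¹ ∂(ν n)‖ ≤ ‖wn n - w‖ * (2 / δ ^ 2) := by
    filter_upwards [hev2] with n hn
    haveI := hν1 n
    have h4 : cauchyT (ν n) (wn n) = z := hν3 n z hz hzs
    unfold cauchyT at h4
    have hdn : ∀ y ∈ Set.Icc a b, δ / 2 ≤ ‖wn n - (y : ℂ)‖ := by
      intro y hy
      have h5 := hdw y hy
      have h6 : w - (y : ℂ) = (wn n - y) - (wn n - w) := by ring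
      have h7 : ‖w - (y : ℂ)‖ ≤ ‖wn n - y‖ + ‖wn n - w‖ := by rw [h6]; exact norm_sub_le _ _
      linarith
    have hnen : ∀ y ∈ Set.Icc a b, wn n - (y : ℂ) ≠ 0 := by
      intro y hy h0
      have := hdn y hy
      rw [h0, norm_zero] at this
      linarith
    have hi1 : Integrable (fun x : ℝ => (wn n - (x : ℂ))⁻¹) (ν n) := by
      refine Integrable.mono' (integrable_const ((δ / 2)⁻¹)) ?_ ?_
      · refine Measurable.aestronglyMeasurable ?_
        fun_prop
      · filter_upwards [haeK n] with y hy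
        rw [norm_inv]
        exact inv_anti₀ (by positivity) (hdn y hy)
    have hi2 : Integrable (fun x : ℝ => (w - (x : ℂ))⁻¹) (ν n) := by
      refine Integrable.mono' (integrable_const (δ⁻¹)) ?_ ?_
      · refine Measurable.aestronglyMeasurable ?_
        fun_prop
      · filter_upwards [haeK n] with y hy
        rw [norm_inv]
        exact inv_anti₀ (by positivity) (hdw y hy)
    conv_lhs => rw [← h4]
    rw [← integral_sub hi1 hi2]
    have := norm_integral_le_of_norm_le_const (μ := ν n)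
      (f := fun x : ℝ => (wn n - (x : ℂ))⁻¹ - (w - (x : ℂ))⁻¹) (C := ‖wn n - w‖ * (2 / δ ^ 2)) ?_
    · simpa using this
    · filter_upwards [haeK n] with y hy
      have h8 : (wn n - (y : ℂ))⁻¹ - (w - (y : ℂ))⁻¹ =
          (w - wn n) * ((wn n - (y : ℂ))⁻¹ * (w - (y : ℂ))⁻¹) := by
        have := hnen y hy
        have := hne y hy
        field_simp
        ring
      rw [h8, norm_mul, norm_mul, norm_inv, norm_inv, norm_sub_rev]
      gcongr
      calc ‖wn n - (y : ℂ)‖⁻¹ * ‖w - (y : ℂ)‖⁻¹ ≤ (δ / 2)⁻¹ * δ⁻¹ := by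
            gcongr
            · exact hdn y hy
            · exact hdw y hy
        _ = 2 / δ ^ 2 := by field_simp
  have hlim2 : Tendsto (fun n => ∫ x : ℝ, (w - (x : ℂ))⁻¹ ∂(ν n)) atTop (𝓝 z) := by
    rw [tendsto_iff_norm_sub_tendsto_zero]
    have h9 : Tendsto (fun n => ‖wn n - w‖ * (2 / δ ^ 2)) atTop (𝓝 0) := by
      have := (tendsto_iff_norm_sub_tendsto_zero.mp hwt).mul_const (2 / δ ^ 2)
      simpa using this
    refine squeeze_zero' (Eventually.of_forall (fun n => norm_nonneg _)) ?_ h9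
    filter_upwards [hdiff] with n hn
    rw [norm_sub_rev]
    exact hn
  exact tendsto_nhds_unique hlim1 (hlim2.mono_left hhyp)

end Pool.Agent.Q190.FM
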