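import Mathlib
import Pool.Agent.Helper509.Semi
import Pool.Agent.Q289.FM.Stm

/-!
# The Marchenko–Pastur law
-/

set_option autoImplicit false

open MeasureTheory Filter Topology

namespace Pool.Agent.Q190.FM

open Pool.Agent.Q289.FM
open Pool.Agent.Helper509.SphDefs (semicircle)
open Pool.Agent.Helper509.Semi (cauchy_semicircle semicircle_support)

lemma exists_small_root (s : ℂ) (hs : s ≠ 0) (hs2 : ‖s‖ < 1 / 2) :
    ∃ z : ℂ, z ≠ 0 ∧ ‖z‖ < 1 ∧ s * (z + 1 / z) = 1 := by
  obtain ⟨z, hz⟩ : ∃ z : ℂ, s * (z * z) + (-1) * z + s = 0 := by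
    have : ∃ r : ℂ, discrim s (-1) s = r * r := by
      obtain ⟨r, hr⟩ := IsAlgClosed.exists_pow_nat_eq (discrim s (-1) s) (n := 2) (by norm_num)
      exact ⟨r, by rw [← hr]; ring⟩
    exact exists_quadratic_eq_zero hs this
  have hz0 : z ≠ 0 := by
    rintro rfl
    apply hs
    simpa using hz
  have hz1 : s * (z + 1 / z) = 1 := by
    field_simp
    linear_combination hz
  have hne : ‖z‖ ≠ 1 := by
    intro h1
    have h2 : ‖s * (z + 1 / z)‖ ≤ ‖s‖ * 2 := by
      rw [norm_mul]
      gcongr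
      refine (norm_add_le _ _).trans ?_
      rw [norm_div, norm_one, h1]; norm_num
    rw [hz1, norm_one] at h2
    linarith
  rcases lt_or_gt_of_ne hne with h | h
  · exact ⟨z, hz0, h, hz1⟩
  · refine ⟨1 / z, by simpa using hz0, ?_, ?_⟩
    · rw [norm_div, norm_one, div_lt_one (by linarith)]; exact h
    · rw [one_div_one_div, add_comm]; exact hz1

lemma semi_int (s z : ℂ) (hs : s ≠ 0) (hz : z ≠ 0) (hz1 : ‖z‖ < 1) (h : s * (z + 1 / z) = 1) :
    ∫ x : ℝ, (1 - s * (x : ℂ))⁻¹ ∂semicircle = 1 + z ^ 2 := by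
  have h1 : z + 1 / z = 1 / s := by
    rw [eq_div_iff hs, mul_comm]; exact h
  have h2 := cauchy_semicircle hz hz1
  unfold Pool.Agent.Helper509.SphDefs.cauchyT at h2
  have h3 : ∀ x : ℝ, (1 - s * (x : ℂ))⁻¹ = (1 / s) * (z + 1 / z - (x : ℂ))⁻¹ := by
    intro x
    rw [h1]
    by_cases hx : 1 - s * (x : ℂ) = 0
    · have : 1 / s - (x : ℂ) = 0 := by
        field_simp
        linear_combination hx
      rw [hx, this]; simp
    · have h4 : 1 / s - (x : ℂ) ≠ 0 := by
        intro h5
        apply hx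
        have : s * (1 / s - (x : ℂ)) = 0 := by rw [h5, mul_zero]
        rw [mul_sub, mul_one_div_cancel hs] at this
        exact this
      have h6 : (1 - s * (x : ℂ)) = s * (1 / s - (x : ℂ)) := by
        rw [mul_sub, mul_one_div_cancel hs]
      rw [h6, mul_inv, one_div]
  simp_rw [h3]
  rw [integral_const_mul, h2, ← h1]
  field_simp
  ring

theorem mp : S_MP := by
  have hm : Measurable (fun x : ℝ => x ^ 2) := by fun_prop
  refine ⟨semicircle.map (fun x => x ^ 2), Measure.isProbabilityMeasure_map hm.aemeasurable, ?_, ?_⟩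
  · rw [Measure.map_apply hm measurableSet_Icc.compl]
    refine measure_mono_null ?_ semicircle_support
    intro x hx hcon
    apply hx
    simp only [Set.mem_Icc] at hcon ⊢
    constructor
    · positivity
    · nlinarith [hcon.1, hcon.2]
  · have hev : ∀ᶠ u : ℂ in 𝓝 0, ‖u‖ < 1 / 4 := by
      have := (continuous_norm (E := ℂ)).tendsto 0
      rw [norm_zero] at this
      exact this.eventually (gt_mem_nhds (by norm_num))
    filter_upwards [hev] with u hu
    have hmap : ∫ x : ℝ, 1 / (1 + u * (x : ℂ)) ∂(semicircle.map (fun x => x ^ 2)) =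
        ∫ x : ℝ, 1 / (1 + u * (x : ℂ) ^ 2) ∂semicircle := by
      rw [integral_map hm.aemeasurable]
      · congr 1; ext x; push_cast; rfl
      · refine Measurable.aestronglyMeasurable ?_
        fun_prop
    rw [hmap]
    by_cases hu0 : u = 0
    · subst hu0
      simp
    obtain ⟨s, hs⟩ := IsAlgClosed.exists_pow_nat_eq (-u) (n := 2) (by norm_num)
    have hs0 : s ≠ 0 := by
      rintro rfl
      apply hu0
      have : -u = 0 := by rw [← hs]; ring
      exact neg_eq_zero.mp this
    have hs2 : ‖s‖ < 1 / 2 := by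
      have h1 : ‖s‖ ^ 2 = ‖u‖ := by rw [← norm_pow, hs, norm_neg]
      nlinarith [norm_nonneg s]
    obtain ⟨z, hz0, hz1, hz⟩ := exists_small_root s hs0 hs2
    have e1 := semi_int s z hs0 hz0 hz1 hz
    have e2 := semi_int (-s) (-z) (neg_ne_zero.mpr hs0) (neg_ne_zero.mpr hz0)
      (by rw [norm_neg]; exact hz1) (by
        have h7 : (-s) * (-z + 1 / (-z)) = s * (z + 1 / z) := by
          field_simp
          ring
        rw [h7]; exact hz)
    have hae : ∀ᵐ x ∂semicircle, x ∈ Set.Icc (-2 : ℝ) 2 := by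
      rw [ae_iff]; exact semicircle_support
    have hden : ∀ (c : ℂ), ‖c‖ < 1 / 2 → ∀ x ∈ Set.Icc (-2 : ℝ) 2, 1 - c * (x : ℂ) ≠ 0 := by
      intro c hc x hx h0
      have h1 : ‖c * (x : ℂ)‖ = 1 := by
        rw [show c * (x : ℂ) = 1 by linear_combination -h0, norm_one]
      rw [norm_mul, Complex.norm_real, Real.norm_eq_abs] at h1
      have h2 : |x| ≤ 2 := abs_le.mpr hx
      nlinarith [norm_nonneg c, abs_nonneg x]
    have hint : ∀ (c : ℂ), ‖c‖ < 1 / 2 →
        Integrable (fun x : ℝ => (1 - c * (x : ℂ))⁻¹) semicircle := by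
      intro c hc
      refine Integrable.mono' (integrable_const ((1 - 2 * ‖c‖)⁻¹)) ?_ ?_
      · refine Measurable.aestronglyMeasurable ?_
        fun_prop
      · filter_upwards [hae] with x hx
        rw [norm_inv]
        refine inv_anti₀ (by linarith) ?_
        have h4 := norm_sub_norm_le (1 : ℂ) (c * (x : ℂ))
        rw [norm_one, norm_mul, Complex.norm_real, Real.norm_eq_abs] at h4
        have h2 : |x| ≤ 2 := abs_le.mpr hx
        nlinarith [norm_nonneg c, abs_nonneg x]
    have hc : ∫ x : ℝ, 1 / (1 + u * (x : ℂ) ^ 2) ∂semicircle = 1 + z ^ 2 := by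
      have h1 : ∫ x : ℝ, 1 / (1 + u * (x : ℂ) ^ 2) ∂semicircle =
          ∫ x : ℝ, (1 / 2) * ((1 - s * (x : ℂ))⁻¹ + (1 - (-s) * (x : ℂ))⁻¹) ∂semicircle := by
        refine integral_congr_ae ?_
        filter_upwards [hae] with x hx
        have h2 := hden s hs2 x hx
        have h3 := hden (-s) (by rw [norm_neg]; exact hs2) x hx
        have h4 : 1 + u * (x : ℂ) ^ 2 = (1 - s * x) * (1 - (-s) * x) := by
          have : u = -s ^ 2 := by rw [hs]; ring
          rw [this]; ring
        rw [h4]
        have h5 : (1 - s * (x : ℂ)) + (1 - (-s) * (x : ℂ)) = 2 := by ring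
        generalize 1 - s * (x : ℂ) = a at h2 h5 ⊢
        generalize 1 - (-s) * (x : ℂ) = b at h3 h5 ⊢
        field_simp
        linear_combination -h5
      rw [h1, integral_const_mul, integral_add (hint s hs2)
        (hint (-s) (by rw [norm_neg]; exact hs2)), e1, e2]
      ring
    rw [hc]
    have hu' : u = -s ^ 2 := by rw [hs]; ring
    have h5 : s * (z ^ 2 + 1) = z := by
      have := hz
      field_simp at this
      linear_combination this
    rw [hu']
    have h6 : (s * (z ^ 2 + 1)) ^ 2 = z ^ 2 := by rw [h5]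
    linear_combination -h6

end Pool.Agent.Q190.FM
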