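import Mathlib
import Pool.Agent.H54R3.Spec508
import Pool.Agent.Q289.FM.Stm

/-!
# The law of `γ + ℓ + ℓ* + Λ` for operators of Fock type
-/

set_option autoImplicit false

open MeasureTheory Filter Topology
open scoped InnerProductSpace

namespace Pool.Agent.Q190.FM

open Pool.Agent.Q289.FM
open Pool.Agent.H54R3.Spec508 (mu mu_out key2 mu_fin)

section
variable {H : Type} [NormedAddCommGroup H] [InnerProductSpace ℂ H] [CompleteSpace H]

lemma mom (A : H →L[ℂ] H) (hA : IsSelfAdjoint A) (Ω : H) (n : ℕ) :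
    Integrable (fun x : ℝ => x ^ n) (mu A Ω) ∧
      ((∫ x, x ^ n ∂(mu A Ω) : ℝ) : ℂ) = inner ℂ Ω ((A ^ n) Ω) := by
  obtain ⟨h1, h2⟩ := key2 A Ω (fun x => x ^ n) (by fun_prop)
  refine ⟨h1, ?_⟩
  rw [h2, cfc_pow_id (R := ℝ) A n hA]

lemma mu_prob (A : H →L[ℂ] H) (hA : IsSelfAdjoint A) (Ω : H) (hΩ : ‖Ω‖ = 1) :
    IsProbabilityMeasure (mu A Ω) := by
  have h := (mom A hA Ω 0).2
  simp only [pow_zero, integral_const, smul_eq_mul, mul_one] at h
  have h2 : inner ℂ Ω ((1 : H →L[ℂ] H) Ω) = (1 : ℂ) := by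
    have : (1 : H →L[ℂ] H) Ω = Ω := rfl
    rw [this, inner_self_eq_norm_sq_to_K, hΩ]; simp
  rw [h2] at h
  have h3 : (mu A Ω).real Set.univ = 1 := by exact_mod_cast h
  constructor
  rw [measureReal_def] at h3
  have := ENNReal.toReal_eq_one_iff _ |>.mp h3
  exact this

lemma mu_ae (A : H →L[ℂ] H) (Ω : H) : ∀ᵐ x ∂(mu A Ω), |x| ≤ ‖A‖ := by
  have := mu_out A Ω
  rw [ae_iff]
  simpa using this

omit [CompleteSpace H] in
lemma norm_pow_apply_le (A : H →L[ℂ] H) (n : ℕ) (v : H) : ‖(A ^ n) v‖ ≤ ‖A‖ ^ n * ‖v‖ := by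
  induction n with
  | zero => simp
  | succ n ih =>
    rw [pow_succ' A n]
    calc ‖(A * A ^ n) v‖ = ‖A ((A ^ n) v)‖ := rfl
      _ ≤ ‖A‖ * ‖(A ^ n) v‖ := A.le_opNorm _
      _ ≤ ‖A‖ * (‖A‖ ^ n * ‖v‖) := by gcongr
      _ = ‖A‖ ^ (n + 1) * ‖v‖ := by ring

/-- The Cauchy transform of the spectral measure. -/
lemma cauchy_mu (A : H →L[ℂ] H) (hA : IsSelfAdjoint A) (Ω ω : H) (w c : ℂ)
    (hw : ‖A‖ < ‖w‖) (hω : w • ω - A ω = c • Ω) :
    c * ∫ x : ℝ, (w - (x : ℂ))⁻¹ ∂(mu A Ω) = inner ℂ Ω ω := by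
  have hw0 : w ≠ 0 := by
    intro h; rw [h, norm_zero] at hw; exact absurd hw (not_lt.mpr (norm_nonneg _))
  have hwpos : 0 < ‖w‖ := norm_pos_iff.mpr hw0
  set q : ℝ := ‖A‖ / ‖w‖ with hq
  have hq0 : 0 ≤ q := by positivity
  have hq1 : q < 1 := by rw [hq, div_lt_one hwpos]; exact hw
  -- the series for the integral
  have hF : ∀ n : ℕ, Integrable (fun x : ℝ => (x : ℂ) ^ n * (w⁻¹) ^ (n + 1)) (mu A Ω) := by
    intro n
    have h1 : Integrable (fun x : ℝ => ((x ^ n : ℝ) : ℂ)) (mu A Ω) := (mom A hA Ω n).1.ofReal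
    have h2 := h1.mul_const ((w⁻¹) ^ (n + 1))
    refine h2.congr (Eventually.of_forall (fun x => ?_))
    simp
  have hFint : ∀ n : ℕ, ∫ x : ℝ, (x : ℂ) ^ n * (w⁻¹) ^ (n + 1) ∂(mu A Ω) =
      inner ℂ Ω ((A ^ n) Ω) * (w⁻¹) ^ (n + 1) := by
    intro n
    rw [integral_mul_const, ← (mom A hA Ω n).2]
    congr 1
    rw [← integral_complex_ofReal]
    congr 1
    ext x
    simp
  have hnorm : ∀ n : ℕ, ∫ x : ℝ, ‖(x : ℂ) ^ n * (w⁻¹) ^ (n + 1)‖ ∂(mu A Ω) ≤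
      (mu A Ω).real Set.univ * ‖w‖⁻¹ * q ^ n := by
    intro n
    have : ∫ x : ℝ, ‖(x : ℂ) ^ n * (w⁻¹) ^ (n + 1)‖ ∂(mu A Ω) ≤
        ∫ _x : ℝ, ‖w‖⁻¹ * q ^ n ∂(mu A Ω) := by
      refine integral_mono_ae (hF n).norm (integrable_const _) ?_
      filter_upwards [mu_ae A Ω] with x hx
      simp only [norm_mul, norm_pow, norm_inv, Complex.norm_real, Real.norm_eq_abs]
      rw [hq, div_eq_mul_inv, mul_pow, pow_succ]
      have : |x| ^ n ≤ ‖A‖ ^ n := pow_le_pow_left₀ (abs_nonneg _) hx n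
      have h3 : 0 ≤ (‖w‖⁻¹) ^ n * ‖w‖⁻¹ := by positivity
      nlinarith [mul_le_mul_of_nonneg_right this h3]
    refine this.trans ?_
    rw [integral_const, smul_eq_mul]
    exact le_of_eq (by ring)
  have hsum : Summable (fun n : ℕ => ∫ x : ℝ, ‖(x : ℂ) ^ n * (w⁻¹) ^ (n + 1)‖ ∂(mu A Ω)) := by
    refine Summable.of_nonneg_of_le (fun n => integral_nonneg (fun x => norm_nonneg _)) hnorm ?_
    exact (summable_geometric_of_lt_one hq0 hq1).mul_left _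
  have h1 := hasSum_integral_of_summable_integral_norm hF hsum
  have h2 : ∫ x : ℝ, ∑' n : ℕ, (x : ℂ) ^ n * (w⁻¹) ^ (n + 1) ∂(mu A Ω) =
      ∫ x : ℝ, (w - (x : ℂ))⁻¹ ∂(mu A Ω) := by
    refine integral_congr_ae ?_
    filter_upwards [mu_ae A Ω] with x hx
    have hx1 : ‖(x : ℂ) * w⁻¹‖ < 1 := by
      rw [norm_mul, norm_inv, Complex.norm_real, Real.norm_eq_abs, ← div_eq_mul_inv,
        div_lt_one hwpos]
      exact lt_of_le_of_lt hx hw
    have h3 : (fun n : ℕ => (x : ℂ) ^ n * (w⁻¹) ^ (n + 1)) =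
        fun n => ((x : ℂ) * w⁻¹) ^ n * w⁻¹ := by
      ext n; rw [mul_pow, pow_succ]; ring
    rw [h3, tsum_mul_right, tsum_geometric_of_norm_lt_one hx1, ← mul_inv]
    congr 1
    field_simp
  rw [h2] at h1
  have h1' : HasSum (fun n : ℕ => c * (inner ℂ Ω ((A ^ n) Ω) * (w⁻¹) ^ (n + 1)))
      (c * ∫ x : ℝ, (w - (x : ℂ))⁻¹ ∂(mu A Ω)) := by
    simp only [hFint] at h1
    exact h1.mul_left _
  -- telescoping
  have hterm : ∀ n : ℕ, c * (inner ℂ Ω ((A ^ n) Ω) * (w⁻¹) ^ (n + 1)) =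
      inner ℂ Ω ((A ^ n) ω) * (w⁻¹) ^ n - inner ℂ Ω ((A ^ (n + 1)) ω) * (w⁻¹) ^ (n + 1) := by
    intro n
    have h4 : (A ^ n) (c • Ω) = w • (A ^ n) ω - (A ^ (n + 1)) ω := by
      rw [← hω, map_sub, map_smul, pow_succ]
      rfl
    have h5 : c * inner ℂ Ω ((A ^ n) Ω) = w * inner ℂ Ω ((A ^ n) ω) -
        inner ℂ Ω ((A ^ (n + 1)) ω) := by
      rw [map_smul] at h4
      have := congrArg (fun v => inner ℂ Ω v) h4
      simpa [inner_smul_right, inner_sub_right] using this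
    rw [← mul_assoc, h5, sub_mul, pow_succ]
    field_simp
  have hpart : ∀ N : ℕ, ∑ n ∈ Finset.range N, c * (inner ℂ Ω ((A ^ n) Ω) * (w⁻¹) ^ (n + 1)) =
      inner ℂ Ω ω - inner ℂ Ω ((A ^ N) ω) * (w⁻¹) ^ N := by
    intro N
    induction N with
    | zero => simp
    | succ N ih => rw [Finset.sum_range_succ, ih, hterm]; ring
  have hlim : Tendsto (fun N : ℕ => inner ℂ Ω ω - inner ℂ Ω ((A ^ N) ω) * (w⁻¹) ^ N) atTop
      (𝓝 (inner ℂ Ω ω - 0)) := by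
    refine tendsto_const_nhds.sub ?_
    rw [tendsto_zero_iff_norm_tendsto_zero]
    have hb : ∀ N : ℕ, ‖inner ℂ Ω ((A ^ N) ω) * (w⁻¹) ^ N‖ ≤ ‖Ω‖ * ‖ω‖ * q ^ N := by
      intro N
      rw [norm_mul, norm_pow, norm_inv]
      have h6 : ‖inner ℂ Ω ((A ^ N) ω)‖ ≤ ‖Ω‖ * (‖A‖ ^ N * ‖ω‖) := by
        refine (norm_inner_le_norm _ _).trans ?_
        gcongr
        exact norm_pow_apply_le A N ω
      calc ‖inner ℂ Ω ((A ^ N) ω)‖ * ‖w‖⁻¹ ^ N ≤ (‖Ω‖ * (‖A‖ ^ N * ‖ω‖)) * ‖w‖⁻¹ ^ N := by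
            gcongr
        _ = ‖Ω‖ * ‖ω‖ * q ^ N := by rw [hq, div_eq_mul_inv, mul_pow]; ring
    refine squeeze_zero (fun N => norm_nonneg _) hb ?_
    have := (tendsto_pow_atTop_nhds_zero_of_lt_one hq0 hq1).const_mul (‖Ω‖ * ‖ω‖)
    simpa using this
  have h7 := h1'.tendsto_sum_nat
  simp only [hpart] at h7
  rw [sub_zero] at hlim
  exact tendsto_nhds_unique h7 hlim

/-- The solution of the resolvent equation. -/
lemma resolvent (Ω : H) (l Λ : H →L[ℂ] H) (N : ℕ) (x s : Fin N → ℝ) (L : ℝ)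
    (hΩ : ‖Ω‖ = 1) (hΛ : IsSelfAdjoint Λ) (hl : (ContinuousLinearMap.adjoint l) Ω = 0)
    (hΛΩ : Λ Ω = 0) (hΛL : ‖Λ‖ ≤ L) (hs : ∀ i, 0 ≤ s i)
    (hx : ∀ i, |x i| ≤ L) (hnl : ‖l‖ ≤ √(∑ i, s i))
    (hk : ∀ k : ℕ, (ContinuousLinearMap.adjoint l) * Λ ^ k * l =
      (∑ i, (s i : ℂ) * (x i : ℂ) ^ k) • (1 : H →L[ℂ] H)) (z : ℂ) (hz : z ≠ 0)
    (hzs : 4 * ‖z‖ * (L + √(∑ i, s i)) < 1) :
    ∃ ω : H, inner ℂ Ω ω = (1 : ℂ) ∧
      (∑ i, (s i : ℂ) * (z / (1 - x i * z)) + 1 / z) • ω -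
        (l + ContinuousLinearMap.adjoint l + Λ) ω = (1 / z) • Ω := by
  set S : ℝ := ∑ i, s i with hS
  have hL : 0 ≤ L := le_trans (norm_nonneg _) hΛL
  have hS0 : 0 ≤ √S := Real.sqrt_nonneg _
  have hz0 : 0 < ‖z‖ := norm_pos_iff.mpr hz
  have hzL : ‖z‖ * L < 1 / 4 := by nlinarith [mul_nonneg hz0.le hS0]
  have hzS : ‖z‖ * √S < 1 / 4 := by nlinarith [mul_nonneg hz0.le hL]
  have hzΛ : ‖z • Λ‖ ≤ ‖z‖ * L := by rw [norm_smul]; gcongr
  have hzΛ1 : ‖z • Λ‖ < 1 := by linarith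
  set M : H →L[ℂ] H := ∑' k : ℕ, (z • Λ) ^ k with hM
  have hM1 : (1 - z • Λ) * M = 1 := mul_neg_geom_series _ hzΛ1
  have hMn : ‖M‖ ≤ (1 - ‖z • Λ‖)⁻¹ := by
    have h := tsum_geometric_le_of_norm_lt_one (z • Λ) hzΛ1
    have h1 : ‖(1 : H →L[ℂ] H)‖ ≤ 1 := ContinuousLinearMap.norm_id_le
    linarith
  have hMn' : ‖M‖ ≤ 4 / 3 := by
    refine hMn.trans ?_
    rw [inv_le_comm₀ (by linarith) (by norm_num)]
    linarith
  set B : H →L[ℂ] H := z • (M * l) with hB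
  have hBn : ‖B‖ < 1 := by
    calc ‖B‖ = ‖z‖ * ‖M * l‖ := by rw [hB, norm_smul]
      _ ≤ ‖z‖ * (‖M‖ * ‖l‖) := by gcongr; exact norm_mul_le _ _
      _ ≤ ‖z‖ * (4 / 3 * √S) := by gcongr
      _ < 1 := by nlinarith
  set P : H →L[ℂ] H := ∑' k : ℕ, B ^ k with hP
  have hP1 : (1 - B) * P = 1 := mul_neg_geom_series _ hBn
  set ω : H := P Ω with hω
  have e1 : ω - z • M (l ω) = Ω := by
    have := congrArg (fun T : H →L[ℂ] H => T Ω) hP1
    simpa [hB, hω] using this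
  have e2 : ∀ v : H, M v - z • Λ (M v) = v := by
    intro v
    have := congrArg (fun T : H →L[ℂ] H => T v) hM1
    simpa using this
  -- (1 - z Λ) ω = Ω + z l ω
  have e3 : ω - z • Λ ω = Ω + z • l ω := by
    have h1 : ω = Ω + z • M (l ω) := by rw [← e1]; abel
    have h2 : Λ ω = z • Λ (M (l ω)) := by
      conv_lhs => rw [h1]
      rw [map_add, hΛΩ, zero_add, map_smul]
    calc ω - z • Λ ω = (Ω + z • M (l ω)) - z • (z • Λ (M (l ω))) := by rw [h2, ← h1]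
      _ = Ω + z • (M (l ω) - z • Λ (M (l ω))) := by rw [smul_sub]; abel
      _ = Ω + z • l ω := by rw [e2]
  -- adjoint
  have e4 : (ContinuousLinearMap.adjoint l) ω = (∑ i, (s i : ℂ) * (z / (1 - x i * z))) • ω := by
    have h1 : ω = Ω + z • M (l ω) := by rw [← e1]; abel
    have hsM : HasSum (fun k : ℕ => (z • Λ) ^ k) M :=
      (summable_geometric_of_norm_lt_one hzΛ1).hasSum
    have h2 : HasSum (fun k : ℕ => (ContinuousLinearMap.adjoint l) (((z • Λ) ^ k) (l ω)))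
        ((ContinuousLinearMap.adjoint l) (M (l ω))) := by
      have h3 := ((ContinuousLinearMap.apply ℂ H (l ω)).hasSum hsM)
      exact ((ContinuousLinearMap.adjoint l).hasSum h3)
    have h4 : ∀ k : ℕ, (ContinuousLinearMap.adjoint l) (((z • Λ) ^ k) (l ω)) =
        (∑ i, (s i : ℂ) * ((x i : ℂ) * z) ^ k) • ω := by
      intro k
      have h5 := congrArg (fun T : H →L[ℂ] H => T ω) (hk k)
      have h6 : (ContinuousLinearMap.adjoint l) ((Λ ^ k) (l ω)) =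
          (∑ i, (s i : ℂ) * (x i : ℂ) ^ k) • ω := by simpa using h5
      rw [smul_pow, smul_apply, map_smul, h6, smul_smul]
      congr 1
      rw [Finset.mul_sum]
      refine Finset.sum_congr rfl (fun i _ => ?_)
      rw [mul_pow]; ring
    have h7 : HasSum (fun k : ℕ => (∑ i, (s i : ℂ) * ((x i : ℂ) * z) ^ k) • ω)
        ((∑ i, (s i : ℂ) * (1 - x i * z)⁻¹) • ω) := by
      refine HasSum.smul_const ?_ _
      refine hasSum_sum (fun i _ => ?_)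
      refine HasSum.mul_left _ ?_
      refine hasSum_geometric_of_norm_lt_one ?_
      rw [norm_mul, Complex.norm_real, Real.norm_eq_abs]
      have := mul_le_mul_of_nonneg_right (hx i) hz0.le
      linarith
    simp only [h4] at h2
    have h8 := h2.unique h7
    conv_lhs => rw [h1]
    rw [map_add, hl, zero_add, map_smul, h8, smul_smul]
    congr 1
    rw [Finset.mul_sum]
    refine Finset.sum_congr rfl (fun i _ => ?_)
    rw [div_eq_mul_inv]; ring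
  refine ⟨ω, ?_, ?_⟩
  · -- inner product
    have h1 : ω = Ω + z • (l ω + Λ ω) := by
      rw [smul_add, ← add_assoc, ← e3]; abel
    rw [h1, inner_add_right, inner_smul_right, inner_add_right]
    have h2 : inner ℂ Ω (l ω) = (0 : ℂ) := by
      rw [← ContinuousLinearMap.adjoint_inner_left, hl, inner_zero_left]
    have h3 : inner ℂ Ω (Λ ω) = (0 : ℂ) := by
      have := (ContinuousLinearMap.isSelfAdjoint_iff_isSymmetric.mp hΛ) Ω ω
      have h4 : inner ℂ (Λ Ω) ω = inner ℂ Ω (Λ ω) := this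
      rw [← h4, hΛΩ, inner_zero_left]
    rw [h2, h3, inner_self_eq_norm_sq_to_K, hΩ]
    simp
  · have h1 : l ω + Λ ω = (1 / z) • (ω - Ω) := by
      have : z • (l ω + Λ ω) = ω - Ω := by
        rw [smul_add, eq_sub_iff_add_eq, add_comm, ← add_assoc, ← e3]; abel
      rw [← this, smul_smul, one_div, inv_mul_cancel₀ hz, one_smul]
    have h2 : (l + ContinuousLinearMap.adjoint l + Λ) ω =
        (ContinuousLinearMap.adjoint l) ω + (l ω + Λ ω) := by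
      simp only [add_apply]; abel
    rw [h2, e4, h1, add_smul, smul_sub]
    abel

lemma norm_l (l Λ : H →L[ℂ] H) (N : ℕ) (x s : Fin N → ℝ)
    (hs : ∀ i, 0 ≤ s i)
    (hk : ∀ k : ℕ, (ContinuousLinearMap.adjoint l) * Λ ^ k * l =
      (∑ i, (s i : ℂ) * (x i : ℂ) ^ k) • (1 : H →L[ℂ] H)) : ‖l‖ ≤ √(∑ i, s i) := by
  refine ContinuousLinearMap.opNorm_le_bound _ (Real.sqrt_nonneg _) (fun h => ?_)
  have h0 := congrArg (fun T : H →L[ℂ] H => T h) (hk 0)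
  have h1 : (ContinuousLinearMap.adjoint l) (l h) = (∑ i, (s i : ℂ)) • h := by simpa using h0
  have h2 : ‖l h‖ ^ 2 = (∑ i, s i) * ‖h‖ ^ 2 := by
    have h3 : inner ℂ (l h) (l h) = inner ℂ h ((ContinuousLinearMap.adjoint l) (l h)) := by
      rw [ContinuousLinearMap.adjoint_inner_right]
    rw [h1, inner_smul_right, inner_self_eq_norm_sq_to_K, inner_self_eq_norm_sq_to_K] at h3
    have h4 : ((‖l h‖ ^ 2 : ℝ) : ℂ) = (((∑ i, s i) * ‖h‖ ^ 2 : ℝ) : ℂ) := by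
      push_cast; exact h3
    exact_mod_cast h4
  have h5 : 0 ≤ ∑ i, s i := Finset.sum_nonneg (fun i _ => hs i)
  rw [← Real.sqrt_sq (norm_nonneg (l h)), h2, Real.sqrt_mul h5, Real.sqrt_sq (norm_nonneg h)]

end

/-- The resolvent parameter lies outside the norm bound. -/
lemma far_bound (N : ℕ) (x s : Fin N → ℝ) (L : ℝ) (hL : 0 ≤ L) (hs : ∀ i, 0 ≤ s i)
    (hx : ∀ i, |x i| ≤ L) (z : ℂ) (hz : z ≠ 0) (hzs : 4 * ‖z‖ * (L + √(∑ i, s i)) < 1) :
    L + 2 * √(∑ i, s i) < ‖∑ i, (s i : ℂ) * (z / (1 - x i * z)) + 1 / z‖ := by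
  set S : ℝ := ∑ i, s i with hS
  have hS0 : 0 ≤ √S := Real.sqrt_nonneg _
  have hS1 : 0 ≤ S := Finset.sum_nonneg (fun i _ => hs i)
  have hz0 : 0 < ‖z‖ := norm_pos_iff.mpr hz
  have hzL : ‖z‖ * L < 1 / 4 := by nlinarith [mul_nonneg hz0.le hS0]
  have hzS : ‖z‖ * √S < 1 / 4 := by nlinarith [mul_nonneg hz0.le hL]
  have h1 : ‖∑ i, (s i : ℂ) * (z / (1 - x i * z))‖ ≤ S * (‖z‖ * (4 / 3)) := by
    refine (norm_sum_le _ _).trans ?_
    rw [hS, Finset.sum_mul]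
    refine Finset.sum_le_sum (fun i _ => ?_)
    rw [norm_mul, Complex.norm_real, Real.norm_eq_abs, abs_of_nonneg (hs i)]
    refine mul_le_mul_of_nonneg_left ?_ (hs i)
    rw [norm_div, div_eq_mul_inv]
    gcongr
    have h2 : 3 / 4 ≤ ‖1 - x i * z‖ := by
      have h3 : ‖(x i : ℂ) * z‖ ≤ 1 / 4 := by
        rw [norm_mul, Complex.norm_real, Real.norm_eq_abs]
        have := mul_le_mul_of_nonneg_right (hx i) hz0.le
        linarith
      have h4 := norm_sub_norm_le (1 : ℂ) ((x i : ℂ) * z)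
      rw [norm_one] at h4
      linarith
    rw [inv_le_comm₀ (by linarith) (by norm_num)]
    linarith
  have h5 : ‖(1 / z : ℂ)‖ - ‖∑ i, (s i : ℂ) * (z / (1 - x i * z))‖ ≤
      ‖∑ i, (s i : ℂ) * (z / (1 - x i * z)) + 1 / z‖ := by
    have := norm_sub_norm_le (1 / z : ℂ) (-∑ i, (s i : ℂ) * (z / (1 - x i * z)))
    rw [norm_neg] at this
    refine this.trans (le_of_eq ?_)
    congr 1; ring
  refine lt_of_lt_of_le ?_ h5
  rw [norm_div, norm_one]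
  refine lt_of_lt_of_le ?_ (sub_le_sub_left h1 _)
  rw [lt_sub_iff_add_lt, lt_div_iff₀ hz0]
  have h6 : S = √S * √S := (Real.mul_self_sqrt hS1).symm
  set a := ‖z‖ * L with ha
  set b := ‖z‖ * √S with hb
  have hb0 : 0 ≤ b := by positivity
  have ha0 : 0 ≤ a := by positivity
  have h7 : (L + 2 * √S + S * (‖z‖ * (4 / 3))) * ‖z‖ = a + 2 * b + 4 / 3 * b ^ 2 := by
    rw [ha, hb, mul_pow, Real.sq_sqrt hS1]
    ring
  have h8 : 4 * (a + b) < 1 := by rw [ha, hb]; linarith [hzs, mul_add ‖z‖ L (√S)]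
  rw [h7]
  nlinarith

theorem op : S_OP := by
  intro H _ _ _ Ω l Λ N x s L γ hΩ hΛ hl hΛΩ hL hΛL hs hx hk
  set S : ℝ := ∑ i, s i with hS
  have hnl := norm_l l Λ N x s hs hk
  set A : H →L[ℂ] H := l + ContinuousLinearMap.adjoint l + Λ with hA
  have hAsa : IsSelfAdjoint A := by
    rw [hA]
    refine IsSelfAdjoint.add ?_ hΛ
    exact IsSelfAdjoint.add_star_self l
  have hAn : ‖A‖ ≤ L + 2 * √S := by
    have h1 : ‖ContinuousLinearMap.adjoint l‖ = ‖l‖ := LinearIsometryEquiv.norm_map _ _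
    calc ‖A‖ ≤ ‖l‖ + ‖ContinuousLinearMap.adjoint l‖ + ‖Λ‖ := norm_add₃_le
      _ ≤ √S + √S + L := by rw [h1]; gcongr
      _ = L + 2 * √S := by ring
  haveI := mu_prob A hAsa Ω hΩ
  have hmeas : Measurable (fun y : ℝ => y + γ) := by fun_prop
  refine ⟨(mu A Ω).map (fun y => y + γ), ?_, ?_, ?_⟩
  · exact Measure.isProbabilityMeasure_map hmeas.aemeasurable
  · rw [Measure.map_apply hmeas measurableSet_Icc.compl]
    refine measure_mono_null ?_ (mu_out A Ω)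
    intro y hy
    simp only [Set.mem_preimage, Set.mem_compl_iff, Set.mem_Icc, not_and_or, not_le] at hy
    simp only [Set.mem_ofPred_eq]
    refine lt_of_le_of_lt hAn ?_
    rcases hy with hy | hy
    · rw [lt_abs]; right; linarith
    · rw [lt_abs]; left; linarith
  · intro z hz hzs
    obtain ⟨ω, hω1, hω2⟩ := resolvent Ω l Λ N x s L hΩ hΛ hl hΛΩ hΛL hs hx hnl hk z hz hzs
    set w : ℂ := ∑ i, (s i : ℂ) * (z / (1 - x i * z)) + 1 / z with hw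
    have hwA : ‖A‖ < ‖w‖ := lt_of_le_of_lt hAn (far_bound N x s L hL hs hx z hz hzs)
    have h1 := cauchy_mu A hAsa Ω ω w (1 / z) hwA hω2
    rw [hω1] at h1
    have h2 : cauchyT ((mu A Ω).map (fun y => y + γ))
        (((γ : ℂ) + ∑ i, (s i : ℂ) * (z / (1 - x i * z))) + 1 / z) =
        ∫ y : ℝ, (w - (y : ℂ))⁻¹ ∂(mu A Ω) := by
      unfold cauchyT
      rw [integral_map hmeas.aemeasurable]
      · congr 1
        ext y
        congr 1
        rw [hw]; push_cast; ring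
      · refine Measurable.aestronglyMeasurable ?_
        fun_prop
    rw [h2]
    have h3 : z * (1 / z * ∫ y : ℝ, (w - (y : ℂ))⁻¹ ∂(mu A Ω)) = z * 1 := by rw [h1]
    rw [← mul_assoc, mul_one_div_cancel hz, one_mul, mul_one] at h3
    exact h3

end Pool.Agent.Q190.FM
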